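import Pool.Agent.H89.AVS.WUN
import Pool.Agent.H77.RZ.Stmts

/-!
# RZ, module CN: the counting inequality for one curve
-/

set_option autoImplicit false

namespace Pool.RZ

open Polynomial Matrix Pool.AVR Pool.AVS Pool.AVR.FINaux Pool.AVS.WUNaux

namespace CN

theorem bil_conj {R : Type} [CommRing R] (g B : Matrix (Fin 3) (Fin 3) R) (u v : Fin 3 → R) :
    bil (gᵀ * B * g) u v = bil B (g *ᵥ u) (g *ᵥ v) := by
  simp only [bil]
  rw [← Matrix.mulVec_mulVec, ← Matrix.mulVec_mulVec, Matrix.dotProduct_mulVec,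
    Matrix.dotProduct_mulVec, Matrix.vecMul_transpose]
  rw [← Matrix.dotProduct_mulVec]

/-- invariance of the condition at `t = c` -/
theorem trivC_conj {F : Type} [Field F] (c : F) {g B : Matrix (Fin 3) (Fin 3) F[X]}
    (hg : gᵀ * AA F[X] * g = AA F[X]) (hB : TrivC c B) : TrivC c (gᵀ * B * g) := by
  obtain ⟨z, hz, h0, h1⟩ := hB
  set e : F[X] →+* F := evalRingHom c with he
  set l : Matrix (Fin 3) (Fin 3) F := g.map e with hl
  have hAm : (AA F[X]).map e = AA F := AA_map e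
  have hlA : lᵀ * AA F * l = AA F := by
    have := congrArg (fun M : Matrix (Fin 3) (Fin 3) F[X] => M.map e) hg
    simp only [Matrix.map_mul, hAm, Matrix.transpose_map] at this
    exact this
  have hlB : (gᵀ * B * g).map (eval c) = lᵀ * (B.map (eval c)) * l := by
    have : (gᵀ * B * g).map e = lᵀ * (B.map e) * l := by
      rw [Matrix.map_mul, Matrix.map_mul, Matrix.transpose_map]
    exact this
  have hinv := inv_right hlA
  set k := AA F * lᵀ * AA F with hk
  have hz' : l *ᵥ (k *ᵥ z) = z := by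
    rw [Matrix.mulVec_mulVec, hinv, Matrix.one_mulVec]
  refine ⟨k *ᵥ z, ?_, ?_, ?_⟩
  · intro h
    rw [h, Matrix.mulVec_zero] at hz'
    exact hz hz'.symm
  · have := bil_conj l (AA F) (k *ᵥ z) (k *ᵥ z)
    rw [hlA, hz'] at this
    rw [this, h0]
  · rw [hlB, bil_conj, hz', h1]

theorem isCoprime_of_unit {F : Type} [Field F] (f : F[X] × F[X] × F[X]) (u : (Alg f)ˣ)
    (h : (RatFunc F)[X]) (hu : (u : Alg f) = AdjoinRoot.mk (cubK f) h) :
    IsCoprime h (cubK f) := by
  obtain ⟨g, hg⟩ := AdjoinRoot.mk_surjective (g := cubK f) ((u⁻¹ : (Alg f)ˣ) : Alg f)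
  have h1 : AdjoinRoot.mk (cubK f) (g * h - 1) = 0 := by
    rw [map_sub, map_mul, map_one, hg, ← hu, Units.inv_mul, sub_self]
  rw [AdjoinRoot.mk_eq_zero] at h1
  obtain ⟨q, hq⟩ := h1
  exact ⟨g, -q, by linear_combination hq⟩

end CN

open CN

open Classical in
theorem cn_thm (hKY : KYStmt) (hCLE : CLEStmt) (hINH : INHStmt)
    (hTRC : TRCStmt) (hSTAB : STABStmt) (hACT : ACTStmt) (hGRP : GRPStmt) (hCNB : CNBStmt)
    (hCHI : CHIStmt) (hCPH : CPHStmt) (hCHH : CHHStmt) (hSFI : SFIStmt) : CNStmt := by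
  intro F _ _ h2 n f hn hf
  have h2K : (2 : RatFunc F) ≠ 0 := two_ratfunc h2
  obtain ⟨hfam, hirr, hsep⟩ := hSFI F h2 n hn hf.1
  have hsepK : (cub (kf f).1 (kf f).2.1 (kf f).2.2).Separable := hsep
  -- stabilisers
  have hstab : ∀ B : Matrix (Fin 3) (Fin 3) F[X], Bᵀ = B → (AA F[X] * B).charpoly = cubP f →
      ∀ g : Matrix (Fin 3) (Fin 3) F[X], gᵀ * AA F[X] * g = AA F[X] → gᵀ * B * g = B →
        g.det = 1 → g = 1 := by
    intro B hB hch g h3 h4 h5
    set φ := algebraMap F[X] (RatFunc F) with hφ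
    have hinj : Function.Injective φ := RatFunc.algebraMap_injective F
    have e1 : (B.map φ)ᵀ = B.map φ := by rw [← Matrix.transpose_map, hB]
    have e2 : (AA (RatFunc F) * B.map φ).charpoly = cubK f := by
      have : AA (RatFunc F) * B.map φ = (AA F[X] * B).map φ := by
        rw [Matrix.map_mul, AA_map]
      rw [this, Matrix.charpoly_map, hch, cubP, cub_map]
      rfl
    have e3 : (g.map φ)ᵀ * AA (RatFunc F) * g.map φ = AA (RatFunc F) := by
      rw [← AA_map φ, ← Matrix.transpose_map, ← Matrix.map_mul, ← Matrix.map_mul, h3]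
    have e4 : (g.map φ)ᵀ * B.map φ * g.map φ = B.map φ := by
      rw [← Matrix.transpose_map, ← Matrix.map_mul, ← Matrix.map_mul, h4]
    have e5 : (g.map φ).det = 1 := by
      rw [← RingHom.mapMatrix_apply, ← RingHom.map_det, h5, map_one]
    have e6 := hSTAB (RatFunc F) h2K (B.map φ) (g.map φ) e1 (by rw [e2]; exact hirr) e3 e4 e5
    refine Matrix.ext fun i j => hinj ?_
    have := congrFun (congrFun e6 i) j
    rw [Matrix.map_apply] at this
    rw [this, Matrix.one_apply, Matrix.one_apply]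
    split_ifs <;> simp
  set T : Set ((Alg f)ˣ ⧸ Sq f) := STR f with hT
  -- the choice of representatives
  have key : ∀ p : ↥T, ∃ (m : ℕ) (B : Matrix (Fin 3) (Fin 3) F[X]) (h : (RatFunc F)[X])
      (u : (Alg f)ˣ), m ≤ n ∧ Bd n m B ∧ (u : Alg f) = AdjoinRoot.mk (cubK f) h ∧
      QuotientGroup.mk u = p.1 ∧
      RepH (kf f).1 (kf f).2.1 (kf f).2.2 h (AA (RatFunc F))
        (B.map (algebraMap F[X] (RatFunc F))) ∧ TrivC 0 B ∧ TrivC 1 B := by
    rintro ⟨ξ, hξ1, u, h, hmk, hu, hsq, hP, ht0, ht1⟩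
    have hcop := isCoprime_of_unit f u h hu
    obtain ⟨m, B, hBd, hR, hb0, hb1⟩ := hKY F h2 n f hf h hcop hsq hP ht0 ht1
    refine ⟨m, B, h, u, ?_, hBd, hu, hmk, hR, hb0, hb1⟩
    by_contra hmn
    push Not at hmn
    have hB0 : B 0 0 = 0 := by
      by_contra h0
      have := hBd.2 0 0 h0
      simp only [Pool.AVR.dd, Matrix.cons_val_zero] at this
      omega
    have hex : ∃ z : Fin 3 → RatFunc F, z ≠ 0 ∧ bil (AA (RatFunc F)) z z = 0 ∧
        bil (B.map (algebraMap F[X] (RatFunc F))) z z = 0 := by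
      refine ⟨![1, 0, 0], ?_, ?_, ?_⟩
      · intro h0
        have := congrFun h0 0
        simp at this
      · simp [bil, AA, Matrix.mulVec, dotProduct, Fin.sum_univ_three]
      · simp [bil, Matrix.mulVec, dotProduct, Fin.sum_univ_three, hB0]
    obtain ⟨s, hs⟩ := (hTRC (RatFunc F) h2K _ _ _ h _ hsepK hR).2 hex
    apply hξ1
    rw [← hmk]
    have h1 : ((1 : (Alg f)ˣ) : Alg f) = AdjoinRoot.mk (cubK f) 1 := by
      rw [map_one]; rfl
    have := (hCLE F f h 1 u 1 hu h1).2 ⟨s, by rw [one_mul]; exact hs⟩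
    rw [this]
    rfl
  choose mm BB hh uu hmn hBd hu hmk hRep hTr0 hTr1 using key
  have hch : ∀ p : ↥T, (AA F[X] * BB p).charpoly = cubP f := fun p =>
    charPH hCPH hCHI f (hh p) (BB p) (hBd p).1 (hRep p)
  -- uniqueness
  have core : ∀ (p p' : ↥T) (g g' : Matrix (Fin 3) (Fin 3) F[X]),
      gᵀ * AA F[X] * g = AA F[X] → g'ᵀ * AA F[X] * g' = AA F[X] →
      gᵀ * BB p * g = g'ᵀ * BB p' * g' → p = p' := by
    intro p p' g g' hg hg' he
    have hR1 : ∀ (q : ↥T) (l : Matrix (Fin 3) (Fin 3) F[X]),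
        lᵀ * AA F[X] * l = AA F[X] →
        RepH (kf f).1 (kf f).2.1 (kf f).2.2 (hh q) (AA (RatFunc F))
          ((lᵀ * BB q * l).map (algebraMap F[X] (RatFunc F))) := by
      intro q l hl
      have := hCHH (RatFunc F) _ _ _ _ _ _ (l.map (algebraMap F[X] (RatFunc F))) (hRep q)
      have e1 : (l.map (algebraMap F[X] (RatFunc F)))ᵀ * AA (RatFunc F) *
          (l.map (algebraMap F[X] (RatFunc F))) = AA (RatFunc F) := by
        rw [← AA_map (algebraMap F[X] (RatFunc F)), ← Matrix.transpose_map]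
        rw [← Matrix.map_mul, ← Matrix.map_mul, hl]
      have e2 : (l.map (algebraMap F[X] (RatFunc F)))ᵀ *
          (BB q).map (algebraMap F[X] (RatFunc F)) * (l.map (algebraMap F[X] (RatFunc F))) =
          (lᵀ * BB q * l).map (algebraMap F[X] (RatFunc F)) := by
        rw [← Matrix.transpose_map, ← Matrix.map_mul, ← Matrix.map_mul]
      rw [e1, e2] at this
      exact this
    have r1 := hR1 p g hg
    have r2 := hR1 p' g' hg'
    rw [he] at r1
    obtain ⟨s, -, hs⟩ := hINH (RatFunc F) h2K _ _ _ _ _ _ r1 r2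
    have hE := (hCLE F f (hh p) (hh p') (uu p) (uu p') (hu p) (hu p')).2 ⟨s, hs⟩
    rw [hmk p, hmk p'] at hE
    exact Subtype.ext hE
  have hone : (1 : Matrix (Fin 3) (Fin 3) F[X])ᵀ * AA F[X] * 1 = AA F[X] := by simp
  have BBinj : Function.Injective BB := by
    intro p p' h
    exact core p p' 1 1 hone hone (by simp [h])
  have hUfin : (⋃ m ∈ Finset.range (n + 1),
      {B : Matrix (Fin 3) (Fin 3) F[X] | Bd n m B}).Finite := by
    refine Set.Finite.biUnion (Finset.finite_toSet _) ?_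
    intro m hm
    have : m ≤ n := by
      have := Finset.mem_range.mp (Finset.mem_coe.mp hm)
      omega
    exact (hCNB F n m this).1
  have hPfin : Finite ↥T := by
    have hmem : ∀ p, BB p ∈ (⋃ m ∈ Finset.range (n + 1),
        {B : Matrix (Fin 3) (Fin 3) F[X] | Bd n m B}) := by
      intro p
      simp only [Set.mem_iUnion]
      exact ⟨mm p, Finset.mem_range.mpr (Nat.lt_succ_of_le (hmn p)), hBd p⟩
    have := hUfin.to_subtype
    exact Finite.of_injective (fun p => (⟨BB p, hmem p⟩ : (⋃ m ∈ Finset.range (n + 1),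
        {B : Matrix (Fin 3) (Fin 3) F[X] | Bd n m B} : Set _))) (fun p p' h => BBinj (by
          simpa using h))
  have hTfin : T.Finite := Set.toFinite T
  refine ⟨hTfin, ?_⟩
  have : Fintype ↥T := hTfin.fintype
  have hsum : (T.ncard : ℝ) = (Fintype.card ↥T : ℝ) := by
    rw [← Nat.card_coe_set_eq, Nat.card_eq_fintype_card]
  have hGfin : ∀ m, (GG F m).Finite := (hGRP F h2).1
  have hG1 : ∀ m, (1 : Matrix (Fin 3) (Fin 3) F[X]) ∈ GG F m := by
    intro m
    refine ⟨hone, Matrix.det_one, ?_⟩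
    intro i j h
    by_cases hij : i = j
    · subst hij
      simp
    · exact absurd (Matrix.one_apply_ne hij) h
  have hcount : ∀ m ∈ Finset.range (n + 1),
      ((Finset.univ.filter (fun p : ↥T => mm p = m)).card : ℝ) ≤
        (({B : Matrix (Fin 3) (Fin 3) F[X] | Bd n m B ∧
          (AA F[X] * B).charpoly = cubP f ∧ TrivC 0 B ∧ TrivC 1 B}.ncard : ℝ) /
            (GG F m).ncard) := by
    intro m hm
    have hmn' : m ≤ n := Nat.lt_succ_iff.mp (Finset.mem_range.mp hm)
    set NB : Set (Matrix (Fin 3) (Fin 3) F[X]) := {B : Matrix (Fin 3) (Fin 3) F[X] | Bd n m B ∧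
          (AA F[X] * B).charpoly = cubP f ∧ TrivC 0 B ∧ TrivC 1 B} with hNB
    have hNBf : NB.Finite := (hCNB F n m hmn').1.subset fun B hB => hB.1
    set Pm := Finset.univ.filter (fun p : ↥T => mm p = m) with hPm
    set Gm := (hGfin m).toFinset with hGm
    have hGc : (GG F m).ncard = Gm.card := Set.ncard_eq_toFinset_card _ (hGfin m)
    have hGpos : 0 < Gm.card := by
      refine Finset.card_pos.mpr ⟨1, ?_⟩
      rw [hGm, Set.Finite.mem_toFinset]
      exact hG1 m
    set φ : ↥T × Matrix (Fin 3) (Fin 3) F[X] → Matrix (Fin 3) (Fin 3) F[X] :=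
      fun z => z.2ᵀ * BB z.1 * z.2 with hφ
    have hfinal : Pm.card * Gm.card ≤ NB.ncard := by
      rw [← Finset.card_product, Set.ncard_eq_toFinset_card _ hNBf]
      refine Finset.card_le_card_of_injOn φ ?_ ?_
      · rintro ⟨p, g⟩ hz
        have hz' := Finset.mem_product.mp (Finset.mem_coe.mp hz)
        have hg : g ∈ GG F m := (Set.Finite.mem_toFinset _).mp hz'.2
        have hp : mm p = m := (Finset.mem_filter.mp hz'.1).2
        rw [Finset.mem_coe, Set.Finite.mem_toFinset]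
        exact ⟨hACT F n m (BB p) g (hp ▸ hBd p) hg, (charpoly_conj hg.1).trans (hch p),
          trivC_conj 0 hg.1 (hTr0 p), trivC_conj 1 hg.1 (hTr1 p)⟩
      · rintro ⟨p, g⟩ hz ⟨p₀, g₀⟩ hz₀ he
        have hz' := Finset.mem_product.mp (Finset.mem_coe.mp hz)
        have hz₀' := Finset.mem_product.mp (Finset.mem_coe.mp hz₀)
        have hg : g ∈ GG F m := (Set.Finite.mem_toFinset _).mp hz'.2
        have hg₀ : g₀ ∈ GG F m := (Set.Finite.mem_toFinset _).mp hz₀'.2
        have hzz : gᵀ * BB p * g = g₀ᵀ * BB p₀ * g₀ := he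
        have hpp : p = p₀ := core p p₀ g g₀ hg.1 hg₀.1 hzz
        subst hpp
        obtain ⟨s1, s2, s3⟩ := stab_of hg.1 hg₀.1 hg.2.1 hg₀.2.1 hzz
        have s4 := hstab (BB p) (hBd p).1 (hch p) _ s1 s2 s3
        obtain ⟨s1', s2', s3'⟩ := stab_of hg₀.1 hg₀.1 hg₀.2.1 hg₀.2.1
          (rfl : g₀ᵀ * BB p * g₀ = g₀ᵀ * BB p * g₀)
        have s4' := hstab (BB p) (hBd p).1 (hch p) _ s1' s2' s3'
        have : g = g₀ := stab_inj hg₀.1 (s4.trans s4'.symm)
        rw [this]
    rw [hGc, le_div_iff₀ (by exact_mod_cast hGpos)]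
    exact_mod_cast hfinal
  calc (T.ncard : ℝ) = (Fintype.card ↥T : ℝ) := hsum
    _ = ∑ m ∈ Finset.range (n + 1),
        ((Finset.univ.filter (fun p : ↥T => mm p = m)).card : ℝ) := by
        rw [← Finset.card_univ, Finset.card_eq_sum_card_fiberwise (f := mm)
          (t := Finset.range (n + 1))]
        · push_cast
          rfl
        · intro p _
          exact Finset.mem_coe.mpr (Finset.mem_range.mpr (Nat.lt_succ_of_le (hmn p)))
    _ ≤ _ := Finset.sum_le_sum hcount

end Pool.RZ
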