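import Pool.Agent.H17.AVS.KYS
import Pool.Agent.H77.RZ.Stmts

/-!
# RZ, module KY: integral matrices of the classes trivial at `0` and `1`
-/

set_option autoImplicit false
set_option linter.all false

namespace Pool.RZ

open Polynomial Matrix Pool.AVR Pool.AVS Pool.AVS.KYS

namespace KY

theorem irr_pc {F : Type} [Field F] (c : F) : Irreducible (pc c) := Polynomial.irreducible_X_sub_C c

theorem monic_pc {F : Type} [Field F] (c : F) : (pc c).Monic := Polynomial.monic_X_sub_C c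

/-- the value at `t = c` -/
noncomputable def evr {F : Type} [Field F] (c : F) (x : RatFunc F) : F :=
  RatFunc.eval (RingHom.id F) c x

theorem mem_iff {F : Type} [Field F] (c : F) (x : RatFunc F) :
    x ∈ IP (pc c) ↔ x.denom.eval₂ (RingHom.id F) c ≠ 0 := by
  show ¬ (X - C c ∣ x.denom) ↔ _
  rw [Polynomial.dvd_iff_isRoot, Polynomial.IsRoot.def, Polynomial.eval₂_id]

theorem evr_add {F : Type} [Field F] (c : F) {x y : RatFunc F} (hx : x ∈ IP (pc c))
    (hy : y ∈ IP (pc c)) : evr c (x + y) = evr c x + evr c y :=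
  RatFunc.eval_add _ _ ((mem_iff c x).1 hx) ((mem_iff c y).1 hy)

theorem evr_mul {F : Type} [Field F] (c : F) {x y : RatFunc F} (hx : x ∈ IP (pc c))
    (hy : y ∈ IP (pc c)) : evr c (x * y) = evr c x * evr c y :=
  RatFunc.eval_mul _ _ ((mem_iff c x).1 hx) ((mem_iff c y).1 hy)

theorem evr_alg {F : Type} [Field F] (c : F) (p : F[X]) :
    evr c (algebraMap F[X] (RatFunc F) p) = p.eval c := by
  unfold evr
  rw [RatFunc.eval_algebraMap, Polynomial.eval₂_id, Algebra.algebraMap_self, RingHom.id_apply]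

/-- the evaluation as a ring homomorphism of the local ring -/
noncomputable def evh {F : Type} [Field F] (hPOL : POLStmt) (c : F) :
    subP hPOL (pc c) (irr_pc c) →+* F where
  toFun x := evr c x.1
  map_one' := by
    have := evr_alg c (1 : F[X])
    rw [map_one, eval_one] at this
    exact this
  map_mul' x y := evr_mul c x.2 y.2
  map_zero' := by
    have := evr_alg c (0 : F[X])
    rw [map_zero, eval_zero] at this
    exact this
  map_add' x y := evr_add c x.2 y.2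

theorem evh_div {F : Type} [Field F] (hPOL : POLStmt) (c : F)
    (x : subP hPOL (pc c) (irr_pc c)) (hx : x.1 / rf (pc c) ∈ IP (pc c)) : evh hPOL c x = 0 := by
  have h1 : (rf (pc c) : RatFunc F) ≠ 0 := by
    intro h
    have := (map_eq_zero_iff (algebraMap F[X] (RatFunc F)) (RatFunc.algebraMap_injective F)).1 h
    exact (irr_pc c).ne_zero this
  have h2 : x.1 = x.1 / rf (pc c) * rf (pc c) := by
    rw [div_mul_cancel₀ _ h1]
  have h3 : rf (pc c) ∈ IP (pc c) := ((hPOL F).2.2.1 (pc c) (pc c) (irr_pc c)).1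
  show evr c x.1 = 0
  rw [h2, evr_mul c hx h3]
  have : evr c (rf (pc c)) = 0 := by
    rw [evr_alg]
    simp
  rw [this, mul_zero]

theorem bil_map {R S : Type} [CommRing R] [CommRing S] (φ : R →+* S)
    (B : Matrix (Fin 3) (Fin 3) R) (u v : Fin 3 → R) :
    φ (bil B u v) = bil (B.map φ) (fun i => φ (u i)) (fun i => φ (v i)) := by
  simp only [bil, dotProduct, Matrix.mulVec, Matrix.map_apply, map_sum, map_mul]

theorem bil_conj {R : Type} [CommRing R] (g B : Matrix (Fin 3) (Fin 3) R) (u v : Fin 3 → R) :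
    bil (gᵀ * B * g) u v = bil B (g *ᵥ u) (g *ᵥ v) := by
  simp only [bil]
  rw [← Matrix.mulVec_mulVec, ← Matrix.mulVec_mulVec, Matrix.dotProduct_mulVec,
    Matrix.dotProduct_mulVec, Matrix.vecMul_transpose]
  rw [← Matrix.dotProduct_mulVec]

theorem bil_e0 {R : Type} [CommRing R] (B : Matrix (Fin 3) (Fin 3) R) :
    bil B ![1, 0, 0] ![1, 0, 0] = B 0 0 := by
  simp [bil, Matrix.mulVec, dotProduct, Fin.sum_univ_three]

theorem inv_mem {F : Type} [Field F] (S : Subring (RatFunc F)) {κ : Matrix (Fin 3) (Fin 3) (RatFunc F)}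
    (hκ : GI (S : Set (RatFunc F)) κ) :
    ∃ κ' κi : Matrix (Fin 3) (Fin 3) S, (κ' * κi = 1) ∧ κ'.map S.subtype = κ := by
  have hdet : κ.det ≠ 0 := hκ.2.1
  let κ₀ : Matrix (Fin 3) (Fin 3) S := Matrix.of fun i j => ⟨κ i j, hκ.1 i j⟩
  have hm : κ₀.map S.subtype = κ := by
    ext i j
    rfl
  have hd : (κ₀.det : RatFunc F) = κ.det := by
    have := RingHom.map_det S.subtype κ₀
    rw [RingHom.mapMatrix_apply, hm] at this
    exact this
  let d' : S := ⟨(κ.det)⁻¹, hκ.2.2.2⟩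
  refine ⟨κ₀, d' • κ₀.adjugate, ?_, hm⟩
  rw [Matrix.mul_smul, Matrix.mul_adjugate, smul_smul]
  have : d' * κ₀.det = 1 := by
    apply Subtype.ext
    show (κ.det)⁻¹ * (κ₀.det : RatFunc F) = 1
    rw [hd, inv_mul_cancel₀ hdet]
  rw [this, one_smul]

theorem trivC {F : Type} [Field F] (hPOL : POLStmt) (c : F)
    (g κ gP G G1 : Matrix (Fin 3) (Fin 3) (RatFunc F)) (B : Matrix (Fin 3) (Fin 3) F[X])
    (hκ : GI (IP (pc c)) κ) (hg : g = gP * κ) (hA : gᵀ * G * g = AA (RatFunc F))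
    (hB : B.map (algebraMap F[X] (RatFunc F)) = gᵀ * G1 * g)
    (h0 : (gPᵀ * G * gP) 0 0 / rf (pc c) ∈ IP (pc c))
    (h1 : (gPᵀ * G1 * gP) 0 0 / rf (pc c) ∈ IP (pc c)) : TrivC c B := by
  set S := subP hPOL (pc c) (irr_pc c) with hS
  obtain ⟨κ', κi, hmul, hm⟩ := inv_mem S hκ
  set z : Fin 3 → S := κi *ᵥ ![1, 0, 0] with hz
  have hκz : κ' *ᵥ z = ![1, 0, 0] := by
    rw [hz, Matrix.mulVec_mulVec, hmul, Matrix.one_mulVec]
  have hκz' : κ *ᵥ (fun i => (z i : RatFunc F)) = ![1, 0, 0] := by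
    have h3 : (fun i => S.subtype ((κ' *ᵥ z) i)) = κ *ᵥ (fun i => (z i : RatFunc F)) := by
      rw [← hm]
      funext i
      simp only [Matrix.mulVec, dotProduct, Matrix.map_apply, map_sum, map_mul]
      rfl
    rw [← h3, hκz]
    funext i
    fin_cases i <;> simp
  -- the values of the forms
  have key : ∀ (M : Matrix (Fin 3) (Fin 3) F[X]) (H : Matrix (Fin 3) (Fin 3) (RatFunc F)),
      M.map (algebraMap F[X] (RatFunc F)) = gᵀ * H * g →
      (gPᵀ * H * gP) 0 0 / rf (pc c) ∈ IP (pc c) →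
      bil (M.map (eval c)) (fun i => evh hPOL c (z i)) (fun i => evh hPOL c (z i)) = 0 := by
    intro M H hM hH
    let M' : Matrix (Fin 3) (Fin 3) S := Matrix.of fun i j =>
      ⟨algebraMap F[X] (RatFunc F) (M i j), ((hPOL F).2.2.1 (pc c) (M i j) (irr_pc c)).1⟩
    have hM1 : M'.map S.subtype = M.map (algebraMap F[X] (RatFunc F)) := by
      ext i j
      rfl
    have hM2 : M'.map (evh hPOL c) = M.map (eval c) := by
      ext i j
      exact evr_alg c (M i j)
    have h4 : ((bil M' z z : S) : RatFunc F) = (gPᵀ * H * gP) 0 0 := by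
      have h5 := bil_map S.subtype M' z z
      rw [hM1, hM, bil_conj] at h5
      have h6 : g *ᵥ (fun i => (S.subtype (z i) : RatFunc F)) = gP *ᵥ ![1, 0, 0] := by
        rw [hg, ← Matrix.mulVec_mulVec]
        congr 1
      have h7 : bil H (gP *ᵥ ![1, 0, 0]) (gP *ᵥ ![1, 0, 0]) = (gPᵀ * H * gP) 0 0 := by
        rw [← bil_conj, bil_e0]
      rw [h6, h7] at h5
      exact h5
    rw [← hM2, ← bil_map]
    apply evh_div
    rw [h4]
    exact hH
  refine ⟨fun i => evh hPOL c (z i), ?_, ?_, key B G1 hB h1⟩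
  · intro h
    have h7 : (κ' *ᵥ z) 0 = 1 := by
      rw [hκz]
      rfl
    have h8 := congrArg (evh hPOL c) h7
    simp only [Matrix.mulVec, dotProduct, map_sum, map_mul, map_one] at h8
    have h9 : ∀ i, evh hPOL c (z i) = 0 := fun i => congrFun h i
    simp [h9] at h8
  · have := key (AA F[X]) G (by
      rw [hA]
      ext i j
      fin_cases i <;> fin_cases j <;> simp [AA]) h0
    have e : (AA F[X]).map (eval c) = AA F := by
      ext i j
      fin_cases i <;> fin_cases j <;> simp [AA]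
    rw [e] at this
    exact this

end KY

open KY

theorem ky_thm (hUSE : USEStmt) (hTRE : TREStmt) (hINF : INFStmt) (hGLB : GLBStmt)
    (hPOL : POLStmt) (hNGH : NGHStmt) (hCHH : CHHStmt) : KYStmt := by
  classical
  intro F _ _ h2 n f hf h hcop hsq hUS hT0 hT1
  have hfam : f ∈ Fam F n := hf.1.1
  have hNR : NR (top3 n f) := hf.2.2.2
  set a := (kf f).1 with ha
  set b := (kf f).2.1 with hb
  set c := (kf f).2.2 with hc
  obtain ⟨hRep, hdet, -⟩ := hNGH (RatFunc F) a b c h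
  have hcub : cub a b c = cubK f := rfl
  have hsq' := hsq
  obtain ⟨ε, hε⟩ := hsq
  have hdetε : (gr0 a b c h).det = -ε ^ 2 := by
    rw [hdet, hcub, hε, sq]
  -- the norm is not zero
  have hε0 : ε ≠ 0 := by
    intro h0
    have hmon : (cubK f).Monic := by
      rw [← hcub]
      unfold cub
      monicity!
    have hu : IsUnit (AdjoinRoot.mk (cubK f) h) := by
      obtain ⟨u, v, huv⟩ := hcop
      refine IsUnit.of_mul_eq_one (AdjoinRoot.mk (cubK f) u) ?_
      rw [← map_mul, mul_comm h u]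
      have h3 : u * h = 1 - v * cubK f := by linear_combination huv
      rw [h3, map_sub, map_one, map_mul, AdjoinRoot.mk_self, mul_zero, sub_zero]
    have h4 := hu.map (Algebra.norm (RatFunc F))
    rw [hε, h0, mul_zero] at h4
    exact not_isUnit_zero h4
  have hGs : (gr0 a b c h)ᵀ = gr0 a b c h := by
    ext i j
    simp only [Matrix.transpose_apply, gr0, Matrix.of_apply]
    rw [mul_comm (X ^ (j : ℕ)) (X ^ (i : ℕ))]
  have hBs : (gr1 a b c h)ᵀ = gr1 a b c h := by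
    ext i j
    simp only [Matrix.transpose_apply, gr1, Matrix.of_apply]
    rw [mul_comm (X ^ (j : ℕ)) (X ^ (i : ℕ))]
  -- bad primes
  obtain ⟨S₀, hS₀, hbad⟩ := exists_bad
    ((List.finRange 3).flatMap (fun i => (List.finRange 3).flatMap fun j =>
      [gr0 a b c h i j, gr1 a b c h i j]) ++
      [(gr0 a b c h).det, ((gr0 a b c h).det)⁻¹])
  set S : Finset F[X] := insert (pc 0) (insert (pc 1) S₀) with hSdef
  have hS : ∀ P ∈ S, P.Monic ∧ Irreducible P := by
    intro P hP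
    rw [hSdef, Finset.mem_insert, Finset.mem_insert] at hP
    rcases hP with rfl | rfl | hP
    · exact ⟨monic_pc 0, irr_pc 0⟩
    · exact ⟨monic_pc 1, irr_pc 1⟩
    · exact hS₀ P hP
  have hSS : ∀ P : F[X], P ∉ S → P ∉ S₀ := by
    intro P hP h
    exact hP (by rw [hSdef]; simp [h])
  have hbad0 : ∀ P : F[X], P.Monic → Irreducible P → P ∉ S → MI (IP P) (gr0 a b c h) := by
    intro P h1 h3 h4 i j
    apply hbad P h1 h3 (hSS P h4)
    simp only [List.mem_append, List.mem_flatMap, List.mem_finRange, true_and]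
    left
    exact ⟨i, j, by simp⟩
  have hbad1 : ∀ P : F[X], P.Monic → Irreducible P → P ∉ S → MI (IP P) (gr1 a b c h) := by
    intro P h1 h3 h4 i j
    apply hbad P h1 h3 (hSS P h4)
    simp only [List.mem_append, List.mem_flatMap, List.mem_finRange, true_and]
    left
    exact ⟨i, j, by simp⟩
  have hdet0 : (gr0 a b c h).det ≠ 0 := by
    rw [hdetε]
    exact neg_ne_zero.2 (pow_ne_zero _ hε0)
  have hbadG : ∀ P : F[X], P.Monic → Irreducible P → P ∉ S → GI (IP P) (gr0 a b c h) := by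
    intro P h1 h3 h4
    refine ⟨hbad0 P h1 h3 h4, hdet0, ?_, ?_⟩
    · apply hbad P h1 h3 (hSS P h4)
      simp
    · apply hbad P h1 h3 (hSS P h4)
      simp
  -- local lattices
  have hloc : ∀ P : F[X], ∃ g : Matrix (Fin 3) (Fin 3) (RatFunc F), (P.Monic ∧ Irreducible P) →
      (g.det ≠ 0 ∧ GI (IP P) (gᵀ * gr0 a b c h * g) ∧ MI (IP P) (gᵀ * gr1 a b c h * g) ∧
      ((P = pc 0 ∨ P = pc 1) → (gᵀ * gr0 a b c h * g) 0 0 / rf P ∈ IP P ∧
        (gᵀ * gr1 a b c h * g) 0 0 / rf P ∈ IP P)) := by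
    intro P
    by_cases hp : P.Monic ∧ Irreducible P
    · by_cases hp0 : P = pc 0
      · obtain ⟨g, hg1, hg2, hg3, hg4, hg5⟩ := hTRE F P f h hp.2 (hp0 ▸ hT0)
        exact ⟨g, fun _ => ⟨hg1, hg2, hg3, fun _ => ⟨hg4, hg5⟩⟩⟩
      · by_cases hp1 : P = pc 1
        · obtain ⟨g, hg1, hg2, hg3, hg4, hg5⟩ := hTRE F P f h hp.2 (hp1 ▸ hT1)
          exact ⟨g, fun _ => ⟨hg1, hg2, hg3, fun _ => ⟨hg4, hg5⟩⟩⟩
        · obtain ⟨g, hg1, hg2, hg3⟩ := hUSE F P f h hp.2 (hUS P hp.1 hp.2 hp0 hp1)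
          refine ⟨g, fun _ => ⟨hg1, hg2, hg3, fun h => ?_⟩⟩
          rcases h with h | h
          · exact absurd h hp0
          · exact absurd h hp1
    · exact ⟨1, fun h => absurd h hp⟩
  choose gP hgP using hloc
  -- the lattice at infinity
  obtain ⟨gi, hgi1, hgi2, hgi3⟩ := hINF F h2 n f hfam hNR h hcop hsq'
  obtain ⟨m, g, hgA, hgS, hgN, κ, hκ, hgκ⟩ := hGLB F h2 (gr0 a b c h) ε S gP gi hGs hε0 hdetε hS
    (fun P hP => ⟨(hgP P (hS P hP)).1, (hgP P (hS P hP)).2.1⟩) hbadG hgi1 hgi2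
  -- integrality at all finite primes
  have hint : ∀ P : F[X], P.Monic → Irreducible P → MI (IP P) (gᵀ * gr1 a b c h * g) := by
    intro P h1 h3
    by_cases hPS : P ∈ S
    · obtain ⟨κP, hκP, hgP'⟩ := hgS P hPS
      have e : gᵀ * gr1 a b c h * g = κPᵀ * ((gP P)ᵀ * gr1 a b c h * gP P) * κP := by
        rw [hgP', Matrix.transpose_mul]
        simp only [Matrix.mul_assoc]
      rw [e]
      exact MI_mul (subP hPOL P h3) (MI_mul (subP hPOL P h3) (MI_tr _ hκP.1)
        (hgP P ⟨h1, h3⟩).2.2.1) hκP.1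
    · exact MI_mul (subP hPOL P h3) (MI_mul (subP hPOL P h3) (MI_tr _ (hgN P h1 h3 hPS).1)
        (hbad1 P h1 h3 hPS)) (hgN P h1 h3 hPS).1
  have hpoly : ∀ i j, ∃ p : F[X], (gᵀ * gr1 a b c h * g) i j = algebraMap F[X] (RatFunc F) p :=
    fun i j => (hPOL F).1 _ fun P h1 h3 => hint P h1 h3 i j
  choose B hB using hpoly
  have hBm : (Matrix.of B).map (algebraMap F[X] (RatFunc F)) = gᵀ * gr1 a b c h * g := by
    ext i j
    rw [Matrix.map_apply, Matrix.of_apply, hB]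
  have hBsym : (Matrix.of B)ᵀ = Matrix.of B := by
    ext1 i j
    apply RatFunc.algebraMap_injective F
    rw [Matrix.transpose_apply, Matrix.of_apply, Matrix.of_apply, ← hB, ← hB]
    have e : (gᵀ * gr1 a b c h * g)ᵀ = gᵀ * gr1 a b c h * g := by
      rw [Matrix.transpose_mul, Matrix.transpose_mul, Matrix.transpose_transpose, hBs,
        Matrix.mul_assoc]
    calc (gᵀ * gr1 a b c h * g) j i = ((gᵀ * gr1 a b c h * g)ᵀ) i j := rfl
      _ = (gᵀ * gr1 a b c h * g) i j := by rw [e]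
  have h0S : (pc 0 : F[X]) ∈ S := by rw [hSdef]; simp
  have h1S : (pc 1 : F[X]) ∈ S := by rw [hSdef]; simp
  refine ⟨m, Matrix.of B, ?_, ?_, ?_, ?_⟩
  · rw [(hPOL F).2.2.2 n m _ hBsym, hBm]
    have e : (Dm m)⁻¹ * (gᵀ * gr1 a b c h * g) * (Dm m)⁻¹ =
        κᵀ * (giᵀ * gr1 a b c h * gi) * κ := by
      rw [hgκ, Matrix.transpose_mul, Matrix.transpose_mul, Dm_tr]
      calc (Dm m)⁻¹ * (Dm m * (κᵀ * giᵀ) * gr1 a b c h * (gi * κ * Dm m)) * (Dm m)⁻¹
          = ((Dm m)⁻¹ * Dm m) * (κᵀ * giᵀ * gr1 a b c h * (gi * κ)) * (Dm m * (Dm m)⁻¹) := by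
            simp only [Matrix.mul_assoc]
        _ = κᵀ * giᵀ * gr1 a b c h * (gi * κ) := by
            rw [Matrix.nonsing_inv_mul _ (det_Dm m), Matrix.mul_nonsing_inv _ (det_Dm m),
              Matrix.one_mul, Matrix.mul_one]
        _ = κᵀ * (giᵀ * gr1 a b c h * gi) * κ := by
            simp only [Matrix.mul_assoc]
    have e2 : ((RatFunc.X : RatFunc F) ^ (-(2 * n : ℤ))) • (κᵀ * (giᵀ * gr1 a b c h * gi) * κ) =
        κᵀ * (((RatFunc.X : RatFunc F) ^ (2 * n))⁻¹ • (giᵀ * gr1 a b c h * gi)) * κ := by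
      have e3 : (RatFunc.X : RatFunc F) ^ (-(2 * n : ℤ)) = ((RatFunc.X : RatFunc F) ^ (2 * n))⁻¹ := by
        rw [_root_.zpow_neg, show (2 * n : ℤ) = ((2 * n : ℕ) : ℤ) by push_cast; ring,
          zpow_natCast]
      rw [e3, Matrix.mul_smul, Matrix.smul_mul]
    rw [e, e2]
    exact MI_inf_mul (MI_inf_mul (MI_tr _ hκ.1) hgi3) hκ.1
  · rw [hBm, ← hgA]
    exact hCHH (RatFunc F) a b c h _ _ g hRep
  · obtain ⟨κP, hκP, hgP'⟩ := hgS (pc 0) h0S
    exact trivC hPOL 0 g κP (gP (pc 0)) (gr0 a b c h) (gr1 a b c h) _ hκP hgP' hgA hBm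
      ((hgP (pc 0) (hS _ h0S)).2.2.2 (Or.inl rfl)).1 ((hgP (pc 0) (hS _ h0S)).2.2.2 (Or.inl rfl)).2
  · obtain ⟨κP, hκP, hgP'⟩ := hgS (pc 1) h1S
    exact trivC hPOL 1 g κP (gP (pc 1)) (gr0 a b c h) (gr1 a b c h) _ hκP hgP' hgA hBm
      ((hgP (pc 1) (hS _ h1S)).2.2.2 (Or.inr rfl)).1 ((hgP (pc 1) (hS _ h1S)).2.2.2 (Or.inr rfl)).2

end Pool.RZ
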